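import Pool.Agent.Helper4.P11.StD
import Pool.Agent.Helper84.P11.D1

/-!
# Project P11 (levels `11^n`): solutions of the relation with given leading forms
-/

set_option autoImplicit false

namespace Pool.Agent.Helper80.P11

open Pool.Agent.Helper4.P11 Pool.Agent.Helper84.P11
open Pool.Agent.Helper2.P11 (Df11 Rel11)
open Pool.Agent.Helper10.P11 (pj pj11)

section led

variable {r s : ℕ}

/-- The defect through the operators. -/
private theorem dfq (F : Fin 3 → Fn11 (11 ^ r) (11 ^ s)) :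
    (Df11 F : Fn11 (11 ^ r) (11 ^ s)) = F 0 - op11 1 1 0 1 (F 0) -
      (F 1 - op11 7 (-2) 1 (-3) (F 1)) - (F 2 - op11 8 (-3) 1 (-4) (F 2)) := rfl

/-- From a small defect to a solution. -/
private theorem core (hs : TSol) (hu : TSur) (G : Fin 3 → Fn11 (11 ^ r) (11 ^ s)) (d : ℤ)
    (hd : d < 11 ^ r + 11 ^ s) (hE : (Df11 G : Fn11 (11 ^ r) (11 ^ s)) ∈ Wd11 (d - 1))
    (h0 : pj 0 (Df11 G : Fn11 (11 ^ r) (11 ^ s)) ∈ Wd11 (d - 1 - 1))
    (h5 : pj 5 (Df11 G : Fn11 (11 ^ r) (11 ^ s)) ∈ Wd11 (d - 1 - 1)) :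
    ∃ F : Fin 3 → Fn11 (11 ^ r) (11 ^ s), Rel11 F ∧ F 0 - G 0 ∈ Wd11 (d - 1) ∧
      F 1 - G 1 ∈ Wd11 (d - 1) ∧ F 2 - G 2 ∈ Wd11 (d - 1) := by
  obtain ⟨a, ha, ha2⟩ := hs r s (d - 1) _ hE h0 h5
  obtain ⟨F', hF', hEq⟩ := hu r s (d - 1 - 1) _ (by linarith) ha2
  have e3 : d - 1 - 1 + 1 = d - 1 := by ring
  rw [e3] at hF'
  refine ⟨![G 0 - F' 0, G 1 + a - F' 1, G 2 - F' 2], ?_, ?_, ?_, ?_⟩
  · have e : (Df11 ![G 0 - F' 0, G 1 + a - F' 1, G 2 - F' 2] : Fn11 (11 ^ r) (11 ^ s)) =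
        Df11 G - (a - op11 7 (-2) 1 (-3) a) - Df11 F' := by
      rw [dfq, dfq, dfq]
      change (G 0 - F' 0) - op11 1 1 0 1 (G 0 - F' 0) -
        ((G 1 + a - F' 1) - op11 7 (-2) 1 (-3) (G 1 + a - F' 1)) -
        ((G 2 - F' 2) - op11 8 (-3) 1 (-4) (G 2 - F' 2)) = _
      simp only [map_sub, map_add]
      abel
    rw [hEq, sub_self] at e
    intro x y
    exact congrFun (congrFun e x) y
  · have e : (![G 0 - F' 0, G 1 + a - F' 1, G 2 - F' 2] : Fin 3 → Fn11 (11 ^ r) (11 ^ s)) 0 -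
        G 0 = -F' 0 := by
      change G 0 - F' 0 - G 0 = -F' 0
      abel
    rw [e]
    exact Submodule.neg_mem _ (hF' 0)
  · have e : (![G 0 - F' 0, G 1 + a - F' 1, G 2 - F' 2] : Fin 3 → Fn11 (11 ^ r) (11 ^ s)) 1 -
        G 1 = a - F' 1 := by
      change G 1 + a - F' 1 - G 1 = a - F' 1
      abel
    rw [e]
    exact Submodule.sub_mem _ ha (hF' 1)
  · have e : (![G 0 - F' 0, G 1 + a - F' 1, G 2 - F' 2] : Fin 3 → Fn11 (11 ^ r) (11 ^ s)) 2 -
        G 2 = -F' 2 := by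
      change G 2 - F' 2 - G 2 = -F' 2
      abel
    rw [e]
    exact Submodule.neg_mem _ (hF' 2)

/-- The main lemma. -/
private theorem main (hp : TPst) (hs : TSol) (hu : TSur) (k A B : ℕ) (hA : A < 11 ^ r)
    (hB : B < 11 ^ s) (hk : ((A : ℤ) - B - k) % 10 = 0) (d : ℤ) (hd : d = (A : ℤ) + B)
    (g0 : Fn11 (11 ^ r) (11 ^ s)) (hg0 : g0 ∈ Wd11 d) (t1 t2 α β : ZMod 11)
    (hc : t1 * ((9 : ZMod 11) ^ k - 1) + t2 * ((5 : ZMod 11) ^ k - 1) = 0)
    (hα : α = t1 * (6 * (9 : ZMod 11) ^ (k + 9)) + t2 * (5 : ZMod 11) ^ (k + 9))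
    (hβ : β = t1 * (7 * (9 : ZMod 11) ^ (k + 1)) + t2 * (8 * (5 : ZMod 11) ^ (k + 1)))
    (hm : ∀ m : ℕ, m = 0 ∨ m = 5 → -dX (pj (m + 1) g0) +
      α • dX (pj (m + 1) (bb11 A B)) + β • dY (pj (m + 9) (bb11 A B)) ∈
        (Wd11 (d - 1 - 1) : Submodule (ZMod 11) (Fn11 (11 ^ r) (11 ^ s)))) :
    ∃ F : Fin 3 → Fn11 (11 ^ r) (11 ^ s), Rel11 F ∧ F 0 - g0 ∈ Wd11 (d - 1) ∧
      F 1 - t1 • bb11 A B ∈ Wd11 (d - 1) ∧ F 2 - t2 • bb11 A B ∈ Wd11 (d - 1) := by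
  obtain ⟨-, -, -, -, wmono, -, ldx, ldy, -⟩ := low0 r s
  obtain ⟨-, -, -, -, -, -, nA, -⟩ := nfa r s
  obtain ⟨p0, -, -, -, -, pd, -, pc⟩ := pj11 r s
  obtain ⟨b1, -⟩ := bb r s
  obtain ⟨q1, q2⟩ := hp r s k
  have mo : ∀ {x : Fn11 (11 ^ r) (11 ^ s)} {e e' : ℤ}, x ∈ Wd11 e → e ≤ e' → x ∈ Wd11 e' :=
    fun hx h => wmono _ _ h hx
  obtain ⟨b, hb⟩ : ∃ b : Fn11 (11 ^ r) (11 ^ s), b = bb11 A B := ⟨_, rfl⟩
  have hbW : b ∈ Wd11 d := by
    rw [hb, hd]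
    exact b1 A B hA hB
  obtain ⟨P, hP⟩ : ∃ P : Fn11 (11 ^ r) (11 ^ s), P = pj k b := ⟨_, rfl⟩
  have hPb : P - b ∈ Wd11 (d - 1) := by
    have h := pc k A B hA hB
    rw [if_pos hk] at h
    rw [hP, hb, hd]
    exact h
  have hPW : P ∈ Wd11 d := by
    have e : P = (P - b) + b := by abel
    rw [e]
    exact Submodule.add_mem _ (mo hPb (by linarith)) hbW
  obtain ⟨u, hu0⟩ : ∃ u : ZMod 11, u = 9 ^ k := ⟨_, rfl⟩
  obtain ⟨u1, hu1⟩ : ∃ u : ZMod 11, u = 9 ^ (k + 9) := ⟨_, rfl⟩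
  obtain ⟨u2, hu2⟩ : ∃ u : ZMod 11, u = 9 ^ (k + 1) := ⟨_, rfl⟩
  obtain ⟨v, hv0⟩ : ∃ u : ZMod 11, u = 5 ^ k := ⟨_, rfl⟩
  obtain ⟨v1, hv1⟩ : ∃ u : ZMod 11, u = 5 ^ (k + 9) := ⟨_, rfl⟩
  obtain ⟨v2, hv2⟩ : ∃ u : ZMod 11, u = 5 ^ (k + 1) := ⟨_, rfl⟩
  rw [← hu0, ← hv0] at hc
  rw [← hu1, ← hv1] at hα
  rw [← hu2, ← hv2] at hβ
  rw [← hu0, ← hu1, ← hu2] at q1
  rw [← hv0, ← hv1, ← hv2] at q2
  rw [← hb] at hm
  rw [← hb]
  -- the operators
  obtain ⟨δ1, hδ1⟩ : ∃ δ : Module.End (ZMod 11) (Fn11 (11 ^ r) (11 ^ s)),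
    δ = op11 7 (-2) 1 (-3) := ⟨_, rfl⟩
  obtain ⟨δ2, hδ2⟩ : ∃ δ : Module.End (ZMod 11) (Fn11 (11 ^ r) (11 ^ s)),
    δ = op11 8 (-3) 1 (-4) := ⟨_, rfl⟩
  obtain ⟨T, hT⟩ : ∃ δ : Module.End (ZMod 11) (Fn11 (11 ^ r) (11 ^ s)),
    δ = op11 1 1 0 1 := ⟨_, rfl⟩
  have r0 : T g0 - g0 - dX g0 ∈ Wd11 (d - 1 - 1) := by
    have h := mo (nA d g0 hg0) (by linarith : d - 9 ≤ d - 1 - 1)
    rw [LinearMap.sub_apply, LinearMap.sub_apply, Module.End.one_apply, oA, ← hT] at h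
    exact h
  have r1 : δ1 P - u • P - (6 * u1) • dX P - (7 * u2) • dY P ∈ Wd11 (d - 1 - 1) := by
    have h := mo (q1 d b hbW) (by linarith : d - 2 ≤ d - 1 - 1)
    rw [Module.End.mul_apply, ← hP, LinearMap.sub_apply, LinearMap.sub_apply,
      LinearMap.sub_apply, LinearMap.smul_apply, LinearMap.smul_apply, LinearMap.smul_apply,
      Module.End.one_apply, ← hδ1] at h
    exact h
  have r2 : δ2 P - v • P - v1 • dX P - (8 * v2) • dY P ∈ Wd11 (d - 1 - 1) := by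
    have h := mo (q2 d b hbW) (by linarith : d - 2 ≤ d - 1 - 1)
    rw [Module.End.mul_apply, ← hP, LinearMap.sub_apply, LinearMap.sub_apply,
      LinearMap.sub_apply, LinearMap.smul_apply, LinearMap.smul_apply, LinearMap.smul_apply,
      Module.End.one_apply, ← hδ2] at h
    exact h
  obtain ⟨E, hE⟩ : ∃ E : Fn11 (11 ^ r) (11 ^ s), E = g0 - T g0 - (t1 • P - δ1 (t1 • P)) -
    (t2 • P - δ2 (t2 • P)) := ⟨_, rfl⟩
  have hEd : (Df11 ![g0, t1 • P, t2 • P] : Fn11 (11 ^ r) (11 ^ s)) = E := by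
    rw [dfq, hE, hT, hδ1, hδ2]
    rfl
  have gX : dX P ∈ Wd11 (d - 1) := ldx d P hPW
  have gY : dY P ∈ Wd11 (d - 1) := ldy d P hPW
  have g0X : dX g0 ∈ Wd11 (d - 1) := ldx d g0 hg0
  have hZ : E + dX g0 - α • dX P - β • dY P ∈ Wd11 (d - 1 - 1) := by
    have e : E + dX g0 - α • dX P - β • dY P = -(T g0 - g0 - dX g0) +
        t1 • (δ1 P - u • P - (6 * u1) • dX P - (7 * u2) • dY P) +
        t2 • (δ2 P - v • P - v1 • dX P - (8 * v2) • dY P) +
        (t1 * (u - 1) + t2 * (v - 1)) • P := by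
      rw [hE, hα, hβ]
      simp only [map_smul]
      module
    rw [e, hc, zero_smul, add_zero]
    exact Submodule.add_mem _ (Submodule.add_mem _ (Submodule.neg_mem _ r0)
      (Submodule.smul_mem _ _ r1)) (Submodule.smul_mem _ _ r2)
  have hEW : E ∈ Wd11 (d - 1) := by
    have e : E = (E + dX g0 - α • dX P - β • dY P) - dX g0 + α • dX P + β • dY P := by abel
    rw [e]
    exact Submodule.add_mem _ (Submodule.add_mem _ (Submodule.sub_mem _ (mo hZ (by linarith)) g0X)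
      (Submodule.smul_mem _ _ gX)) (Submodule.smul_mem _ _ gY)
  have hpE : ∀ m : ℕ, m = 0 ∨ m = 5 → pj m E ∈ Wd11 (d - 1 - 1) := by
    intro m hm'
    have s1 := mo (p0 m _ _ hZ) (by linarith : d - 1 - 1 - 0 ≤ d - 1 - 1)
    have s2 := mo ((pd m).1 _ _ hg0) (by linarith : d - 2 ≤ d - 1 - 1)
    have s3 := mo ((pd m).1 _ _ hPW) (by linarith : d - 2 ≤ d - 1 - 1)
    have s4 := mo ((pd m).2 _ _ hPW) (by linarith : d - 2 ≤ d - 1 - 1)
    have s5 := ldx _ _ (mo (p0 (m + 1) _ _ hPb) (by linarith : d - 1 - 0 ≤ d - 1))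
    have s6 := ldy _ _ (mo (p0 (m + 9) _ _ hPb) (by linarith : d - 1 - 0 ≤ d - 1))
    rw [LinearMap.sub_apply, Module.End.mul_apply, Module.End.mul_apply] at s2 s3 s4
    have e : pj m E = pj m (E + dX g0 - α • dX P - β • dY P) -
        (pj m (dX g0) - dX (pj (m + 1) g0)) + α • (pj m (dX P) - dX (pj (m + 1) P)) +
        β • (pj m (dY P) - dY (pj (m + 9) P)) + α • dX (pj (m + 1) (P - b)) +
        β • dY (pj (m + 9) (P - b)) +
        (-dX (pj (m + 1) g0) + α • dX (pj (m + 1) b) + β • dY (pj (m + 9) b)) := by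
      simp only [map_add, map_sub, map_smul]
      module
    rw [e]
    exact Submodule.add_mem _ (Submodule.add_mem _ (Submodule.add_mem _ (Submodule.add_mem _
      (Submodule.add_mem _ (Submodule.sub_mem _ s1 s2) (Submodule.smul_mem _ _ s3))
      (Submodule.smul_mem _ _ s4)) (Submodule.smul_mem _ _ s5)) (Submodule.smul_mem _ _ s6))
      (hm m hm')
  have hdd : d < 11 ^ r + 11 ^ s := by
    have hA' : (A : ℤ) < 11 ^ r := by exact_mod_cast hA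
    have hB' : (B : ℤ) < 11 ^ s := by exact_mod_cast hB
    rw [hd]
    linarith
  obtain ⟨F, hR, h0, h1, h2⟩ := core hs hu ![g0, t1 • P, t2 • P] d hdd (by rw [hEd]; exact hEW)
    (by rw [hEd]; exact hpE 0 (Or.inl rfl)) (by rw [hEd]; exact hpE 5 (Or.inr rfl))
  refine ⟨F, hR, h0, ?_, ?_⟩
  · have e : F 1 - t1 • b = (F 1 - t1 • P) + t1 • (P - b) := by module
    rw [e]
    exact Submodule.add_mem _ h1 (Submodule.smul_mem _ _ hPb)
  · have e : F 2 - t2 • b = (F 2 - t2 • P) + t2 • (P - b) := by module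
    rw [e]
    exact Submodule.add_mem _ h2 (Submodule.smul_mem _ _ hPb)

end led

/-- The classes of a monomial. -/
private theorem cls (r s A B m : ℕ) (hA : A < 11 ^ r) (hB : B < 11 ^ s) :
    (((A : ℤ) - B - m) % 10 ≠ 0 → pj m (bb11 A B : Fn11 (11 ^ r) (11 ^ s)) ∈
      Wd11 ((A : ℤ) + B - 1)) ∧
    (((A : ℤ) - B - m) % 10 = 0 → pj m (bb11 A B : Fn11 (11 ^ r) (11 ^ s)) - bb11 A B ∈
      Wd11 ((A : ℤ) + B - 1)) := by
  obtain ⟨-, -, -, -, -, -, -, pc⟩ := pj11 r s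
  constructor
  · intro h
    have h1 := pc m A B hA hB
    rw [if_neg h, sub_zero] at h1
    exact h1
  · intro h
    have h1 := pc m A B hA hB
    rw [if_pos h] at h1
    exact h1

/-- All indices except `6`. -/
private theorem gen (hp : TPst) (hs : TSol) (hu : TSur) (r s c i j k : ℕ) (h6 : c ≠ 6)
    (hA : aM c + i + 11 * j < 11 ^ r) (hB : bM c + i + j < 11 ^ s)
    (hk : ((aM c : ℤ) - bM c - k) % 10 = 0) (hk1 : k % 10 ≠ 1) (hk9 : k % 10 ≠ 9)
    (hc : tpM c 1 * ((9 : ZMod 11) ^ k - 1) + tpM c 2 * ((5 : ZMod 11) ^ k - 1) = 0)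
    (hk6 : k % 10 ≠ 6 ∨
      tpM c 1 * (6 * (9 : ZMod 11) ^ (k + 9)) + tpM c 2 * (5 : ZMod 11) ^ (k + 9) = tpM c 0)
    (hk4 : k % 10 ≠ 4 ∨
      tpM c 1 * (7 * (9 : ZMod 11) ^ (k + 1)) + tpM c 2 * (8 * (5 : ZMod 11) ^ (k + 1)) = 0) :
    ∃ F : Fin 3 → Fn11 (11 ^ r) (11 ^ s), Rel11 F ∧
      ∀ f : Fin 3, F f - ldM c i j f ∈ Wd11 ((dgM c i j : ℤ) - 1) := by
  obtain ⟨-, -, -, -, wmono, -, ldx, ldy, -⟩ := low0 r s
  obtain ⟨b1, -⟩ := bb r s
  obtain ⟨A, hAd⟩ : ∃ A, A = aM c + i + 11 * j := ⟨_, rfl⟩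
  obtain ⟨B, hBd⟩ : ∃ B, B = bM c + i + j := ⟨_, rfl⟩
  have hld : ∀ f : Fin 3, (ldM c i j f : Fn11 (11 ^ r) (11 ^ s)) = tpM c f • bb11 A B := by
    intro f
    rw [hAd, hBd]
    unfold ldM
    rw [if_neg (fun h => h6 h.1), add_zero]
  have hdg : ((dgM c i j : ℕ) : ℤ) = (A : ℤ) + B := by
    have : dgM c i j = A + B := by
      unfold dgM
      omega
    rw [this]
    push_cast
    ring
  rw [hdg]
  rw [← hAd] at hA
  rw [← hBd] at hB
  have hkk : ((A : ℤ) - B - k) % 10 = 0 := by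
    rw [hAd, hBd]
    push_cast
    omega
  have key := main hp hs hu k A B hA hB hkk ((A : ℤ) + B) rfl (tpM c 0 • bb11 A B)
    (Submodule.smul_mem _ _ (b1 A B hA hB)) (tpM c 1) (tpM c 2) _ _ hc rfl rfl (by
      obtain ⟨α, hα⟩ : ∃ α : ZMod 11, α = tpM c 1 * (6 * (9 : ZMod 11) ^ (k + 9)) +
        tpM c 2 * (5 : ZMod 11) ^ (k + 9) := ⟨_, rfl⟩
      obtain ⟨β, hβ⟩ : ∃ β : ZMod 11, β = tpM c 1 * (7 * (9 : ZMod 11) ^ (k + 1)) +
        tpM c 2 * (8 * (5 : ZMod 11) ^ (k + 1)) := ⟨_, rfl⟩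
      rw [← hα] at hk6
      rw [← hβ] at hk4
      rw [← hα, ← hβ]
      intro m hm
      have e : -dX (pj (m + 1) (tpM c 0 • bb11 A B)) + α • dX (pj (m + 1) (bb11 A B)) +
          β • dY (pj (m + 9) (bb11 A B)) =
          (α - tpM c 0) • dX (pj (m + 1) (bb11 A B : Fn11 (11 ^ r) (11 ^ s))) +
          β • dY (pj (m + 9) (bb11 A B : Fn11 (11 ^ r) (11 ^ s))) := by
        simp only [map_smul]
        module
      rw [e]
      refine Submodule.add_mem _ ?_ ?_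
      · rcases hm with rfl | rfl
        · exact Submodule.smul_mem _ _ (ldx _ _ ((cls r s A B (0 + 1) hA hB).1 (by
            push_cast
            omega)))
        · rcases hk6 with h | h
          · exact Submodule.smul_mem _ _ (ldx _ _ ((cls r s A B (5 + 1) hA hB).1 (by
              push_cast
              omega)))
          · rw [h, sub_self, zero_smul]
            exact Submodule.zero_mem _
      · rcases hm with rfl | rfl
        · exact Submodule.smul_mem _ _ (ldy _ _ ((cls r s A B (0 + 9) hA hB).1 (by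
            push_cast
            omega)))
        · rcases hk4 with h | h
          · exact Submodule.smul_mem _ _ (ldy _ _ ((cls r s A B (5 + 9) hA hB).1 (by
              push_cast
              omega)))
          · rw [h, zero_smul]
            exact Submodule.zero_mem _)
  obtain ⟨F, hR, h0, h1, h2⟩ := key
  refine ⟨F, hR, fun f => ?_⟩
  rw [hld]
  fin_cases f
  · exact h0
  · exact h1
  · exact h2

/-- The index `6`. -/
private theorem six (hp : TPst) (hs : TSol) (hu : TSur) (r s i j : ℕ)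
    (hA : 5 + i + 11 * j + 1 < 11 ^ r) (hB : i + j + 1 < 11 ^ s) :
    ∃ F : Fin 3 → Fn11 (11 ^ r) (11 ^ s), Rel11 F ∧
      ∀ f : Fin 3, F f - ldM 6 i j f ∈ Wd11 ((dgM 6 i j : ℤ) - 1) := by
  obtain ⟨-, -, -, -, wmono, -, ldx, ldy, -⟩ := low0 r s
  obtain ⟨b1, b2, b3, -⟩ := bb r s
  obtain ⟨A, hAd⟩ : ∃ A, A = 5 + i + 11 * j := ⟨_, rfl⟩
  obtain ⟨B, hBd⟩ : ∃ B, B = i + j := ⟨_, rfl⟩
  have q1 : aM 6 = 5 := rfl
  have q2 : bM 6 = 1 := rfl
  have e1 : aM 6 + i + 11 * j = A := by rw [q1, hAd]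
  have e2 : bM 6 + i + j = B + 1 := by rw [q2, hBd]; ring
  have e3 : B + 1 - 1 = B := by omega
  have hld0 : (ldM 6 i j 0 : Fn11 (11 ^ r) (11 ^ s)) =
      (8 : ZMod 11) • bb11 A (B + 1) + (3 : ZMod 11) • bb11 (A + 1) B := by
    unfold ldM
    rw [if_pos ⟨rfl, rfl⟩, e1, e2, e3]
    rfl
  have hld1 : (ldM 6 i j 1 : Fn11 (11 ^ r) (11 ^ s)) = (1 : ZMod 11) • bb11 A (B + 1) := by
    unfold ldM
    rw [if_neg (by decide), add_zero, e1, e2]
    rfl
  have hld2 : (ldM 6 i j 2 : Fn11 (11 ^ r) (11 ^ s)) = (5 : ZMod 11) • bb11 A (B + 1) := by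
    unfold ldM
    rw [if_neg (by decide), add_zero, e1, e2]
    rfl
  have hdg : ((dgM 6 i j : ℕ) : ℤ) = (A : ℤ) + ((B + 1 : ℕ) : ℤ) := by
    have : dgM 6 i j = A + (B + 1) := by
      unfold dgM
      rw [q1, q2]
      omega
    rw [this]
    push_cast
    ring
  rw [hdg]
  rw [← hAd] at hA
  rw [← hBd] at hB
  have hkk : ((A : ℤ) - ((B + 1 : ℕ) : ℤ) - ((4 : ℕ) : ℤ)) % 10 = 0 := by
    rw [hAd, hBd]
    push_cast
    omega
  have hA1 : A < 11 ^ r := by omega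
  have hB1 : B < 11 ^ s := by omega
  have hdX : dX (bb11 (A + 1) B : Fn11 (11 ^ r) (11 ^ s)) = bb11 A B := b2 A B hA hB1
  have hdY : dY (bb11 A (B + 1) : Fn11 (11 ^ r) (11 ^ s)) = bb11 A B := b3 A B hA1 hB
  have hW2 : (bb11 (A + 1) B : Fn11 (11 ^ r) (11 ^ s)) ∈ Wd11 ((A : ℤ) + ((B + 1 : ℕ) : ℤ)) := by
    refine wmono _ _ ?_ (b1 (A + 1) B hA hB1)
    push_cast
    linarith
  have hed : ((A + 1 : ℕ) : ℤ) + (B : ℤ) - 1 = (A : ℤ) + ((B + 1 : ℕ) : ℤ) - 1 := by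
    push_cast
    ring
  have key := main hp hs hu 4 A (B + 1) hA1 hB hkk ((A : ℤ) + ((B + 1 : ℕ) : ℤ)) rfl
    ((8 : ZMod 11) • bb11 A (B + 1) + (3 : ZMod 11) • bb11 (A + 1) B)
    (Submodule.add_mem _ (Submodule.smul_mem _ _ (b1 A (B + 1) hA1 hB))
      (Submodule.smul_mem _ _ hW2)) 1 5 (1 * (6 * (9 : ZMod 11) ^ (4 + 9)) +
        5 * (5 : ZMod 11) ^ (4 + 9)) 3 (by decide) rfl (by decide) (by
      obtain ⟨α, hα⟩ : ∃ α : ZMod 11, α = 1 * (6 * (9 : ZMod 11) ^ (4 + 9)) +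
        5 * (5 : ZMod 11) ^ (4 + 9) := ⟨_, rfl⟩
      rw [← hα]
      have c1 : ∀ m : ℕ, ((A : ℤ) - ((B + 1 : ℕ) : ℤ) - (m : ℤ)) % 10 ≠ 0 →
          pj m (bb11 A (B + 1) : Fn11 (11 ^ r) (11 ^ s)) ∈
            Wd11 ((A : ℤ) + ((B + 1 : ℕ) : ℤ) - 1) := fun m hm =>
        (cls r s A (B + 1) m hA1 hB).1 hm
      have c2 : pj 14 (bb11 A (B + 1) : Fn11 (11 ^ r) (11 ^ s)) - bb11 A (B + 1) ∈
            Wd11 ((A : ℤ) + ((B + 1 : ℕ) : ℤ) - 1) :=
        (cls r s A (B + 1) 14 hA1 hB).2 (by push_cast; omega)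
      have c3 : pj 1 (bb11 (A + 1) B : Fn11 (11 ^ r) (11 ^ s)) ∈
            Wd11 ((A : ℤ) + ((B + 1 : ℕ) : ℤ) - 1) := by
        rw [← hed]
        exact (cls r s (A + 1) B 1 hA hB1).1 (by push_cast; omega)
      have c4 : pj 6 (bb11 (A + 1) B : Fn11 (11 ^ r) (11 ^ s)) - bb11 (A + 1) B ∈
            Wd11 ((A : ℤ) + ((B + 1 : ℕ) : ℤ) - 1) := by
        rw [← hed]
        exact (cls r s (A + 1) B 6 hA hB1).2 (by push_cast; omega)
      intro m hm
      rcases hm with rfl | rfl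
      · have e : -dX (pj (0 + 1) ((8 : ZMod 11) • bb11 A (B + 1) + (3 : ZMod 11) • bb11 (A + 1) B)) +
            α • dX (pj (0 + 1) (bb11 A (B + 1))) + (3 : ZMod 11) • dY (pj (0 + 9) (bb11 A (B + 1))) =
            (α - 8) • dX (pj 1 (bb11 A (B + 1) : Fn11 (11 ^ r) (11 ^ s))) -
            (3 : ZMod 11) • dX (pj 1 (bb11 (A + 1) B : Fn11 (11 ^ r) (11 ^ s))) +
            (3 : ZMod 11) • dY (pj 9 (bb11 A (B + 1) : Fn11 (11 ^ r) (11 ^ s))) := by
          rw [show 0 + 1 = 1 from rfl, show 0 + 9 = 9 from rfl]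
          simp only [map_smul, map_add]
          module
        rw [e]
        exact Submodule.add_mem _ (Submodule.sub_mem _
          (Submodule.smul_mem _ _ (ldx _ _ (c1 1 (by push_cast; omega))))
          (Submodule.smul_mem _ _ (ldx _ _ c3)))
          (Submodule.smul_mem _ _ (ldy _ _ (c1 9 (by push_cast; omega))))
      · have e : -dX (pj (5 + 1) ((8 : ZMod 11) • bb11 A (B + 1) + (3 : ZMod 11) • bb11 (A + 1) B)) +
            α • dX (pj (5 + 1) (bb11 A (B + 1))) + (3 : ZMod 11) • dY (pj (5 + 9) (bb11 A (B + 1))) =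
            (α - 8) • dX (pj 6 (bb11 A (B + 1) : Fn11 (11 ^ r) (11 ^ s))) -
            (3 : ZMod 11) • dX (pj 6 (bb11 (A + 1) B) - bb11 (A + 1) B :
              Fn11 (11 ^ r) (11 ^ s)) +
            (3 : ZMod 11) • dY (pj 14 (bb11 A (B + 1)) - bb11 A (B + 1) :
              Fn11 (11 ^ r) (11 ^ s)) := by
          rw [show 5 + 1 = 6 from rfl, show 5 + 9 = 14 from rfl]
          simp only [map_smul, map_add, map_sub, hdX, hdY]
          module
        rw [e]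
        exact Submodule.add_mem _ (Submodule.sub_mem _
          (Submodule.smul_mem _ _ (ldx _ _ (c1 6 (by push_cast; omega))))
          (Submodule.smul_mem _ _ (ldx _ _ c4)))
          (Submodule.smul_mem _ _ (ldy _ _ c2)))
  obtain ⟨F, hR, h0, h1, h2⟩ := key
  refine ⟨F, hR, fun f => ?_⟩
  fin_cases f
  · rw [← hld0] at h0
    exact h0
  · rw [← hld1] at h1
    exact h1
  · rw [← hld2] at h2
    exact h2

theorem hLed (hp : TPst) (hs : TSol) (hu : TSur) : TLed := by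
  intro r s c i j hc hi1 hi2
  interval_cases c
  · exact gen hp hs hu r s 0 i j 0 (by decide) hi1 hi2 (by decide) (by decide) (by decide)
      (by decide) (Or.inl (by decide)) (Or.inl (by decide))
  · exact gen hp hs hu r s 1 i j 0 (by decide) hi1 hi2 (by decide) (by decide) (by decide)
      (by decide) (Or.inl (by decide)) (Or.inl (by decide))
  · exact gen hp hs hu r s 2 i j 2 (by decide) hi1 hi2 (by decide) (by decide) (by decide)
      (by decide) (Or.inl (by decide)) (Or.inl (by decide))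
  · exact gen hp hs hu r s 3 i j 4 (by decide) hi1 hi2 (by decide) (by decide) (by decide)
      (by decide) (Or.inl (by decide)) (Or.inr (by decide))
  · exact gen hp hs hu r s 4 i j 2 (by decide) hi1 hi2 (by decide) (by decide) (by decide)
      (by decide) (Or.inl (by decide)) (Or.inl (by decide))
  · exact gen hp hs hu r s 5 i j 5 (by decide) hi1 hi2 (by decide) (by decide) (by decide)
      (by decide) (Or.inl (by decide)) (Or.inl (by decide))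
  · have q1 : eM 6 = 6 := rfl
    have q2 : bM 6 = 1 := rfl
    rw [q1] at hi1
    rw [q2] at hi2
    exact six hp hs hu r s i j (by omega) (by omega)
  · exact gen hp hs hu r s 7 i j 6 (by decide) hi1 hi2 (by decide) (by decide) (by decide)
      (by decide) (Or.inr (by decide)) (Or.inl (by decide))
  · exact gen hp hs hu r s 8 i j 8 (by decide) hi1 hi2 (by decide) (by decide) (by decide)
      (by decide) (Or.inl (by decide)) (Or.inl (by decide))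
  · exact gen hp hs hu r s 9 i j 8 (by decide) hi1 hi2 (by decide) (by decide) (by decide)
      (by decide) (Or.inl (by decide)) (Or.inl (by decide))

end Pool.Agent.Helper80.P11
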