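import Pool.Agent.Helper76.P11.StC

/-!
# Project P11 (levels `11^n`), module TYP: maps of the plane and their types

All maps are written as pairs of fractional linear maps in one coordinate; the relations are identities of matrices up to scalars.
Models: `Pool/Agent/Helper42/S7/M_Typ.lean`, `Pool/Agent/Helper44/TK5/M_TYPK.lean`.
-/

set_option autoImplicit false

namespace Pool.Agent.Helper80.P11

open Pool.Agent.Helper76.P11

private theorem unit11 {m : ℕ} (a : ℤ) (ha : ¬ (11 : ℤ) ∣ a) (z : ZMod (11 ^ m)) :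
    IsUnit ((a : ZMod (11 ^ m)) + 11 * z) := by
  obtain ⟨k, rfl⟩ := ZMod.intCast_surjective z
  have h7 : Prime (11 : ℤ) := by norm_num
  have h1 : IsCoprime (11 : ℤ) (a + 11 * k) := by
    refine (Irreducible.coprime_iff_not_dvd h7.irreducible).mpr fun h => ha ?_
    exact (dvd_add_left (dvd_mul_right 11 k)).mp h
  obtain ⟨u, v, huv⟩ := h1.pow_left (m := m)
  refine IsUnit.of_mul_eq_one ((v : ZMod (11 ^ m))) ?_
  have h2 := congrArg (Int.cast : ℤ → ZMod (11 ^ m)) huv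
  push_cast at h2
  have h3 : (11 : ZMod (11 ^ m)) ^ m = 0 := by
    have := ZMod.natCast_self (11 ^ m)
    push_cast at this
    exact this
  rw [h3] at h2
  linear_combination h2

private theorem unitA (μ : ℕ) {m : ℕ} (a c : ℤ) (ha : ¬ (11 : ℤ) ∣ a) (x : ZMod (11 ^ m)) :
    IsUnit ((a : ZMod (11 ^ m)) + 11 ^ (μ + 1) * c * x) := by
  have h := unit11 (m := m) a ha (11 ^ μ * c * x)
  have e : (a : ZMod (11 ^ m)) + 11 * (11 ^ μ * c * x) = (a : ZMod (11 ^ m)) + 11 ^ (μ + 1) * c * x := by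
    ring
  rwa [e] at h

private theorem frac_eq {n : ℕ} {x y s t : ZMod n} (hs : IsUnit s) (ht : IsUnit t)
    (h : x * t = y * s) : x * s⁻¹ = y * t⁻¹ := by
  have h1 := ZMod.mul_inv_of_unit s hs
  have h2 := ZMod.mul_inv_of_unit t ht
  linear_combination (x * s⁻¹) * (-h2) + (y * t⁻¹) * h1 + s⁻¹ * t⁻¹ * h

/-- The fraction in the definition of `trp`. -/
private noncomputable def mob (μ : ℕ) {m : ℕ} (a b c d : ℤ) (t : ZMod (11 ^ m)) : ZMod (11 ^ m) :=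
  ((b : ZMod (11 ^ m)) + d * t) * ((a : ZMod (11 ^ m)) + 11 ^ (μ + 1) * c * t)⁻¹

private theorem trp_eq (μ : ℕ) {m : ℕ} (a b c d : ℤ) (p : Pt m) :
    trp μ a b c d p = (mob μ a b c d p.1, mob μ d c b a p.2) := rfl

private theorem mob_mob (μ : ℕ) {m : ℕ} (a b c d a' b' c' d' : ℤ) (ha : ¬ (11 : ℤ) ∣ a)
    (ha' : ¬ (11 : ℤ) ∣ a') (hA : ¬ (11 : ℤ) ∣ a * a' + 11 ^ (μ + 1) * b * c') (t : ZMod (11 ^ m)) :
    mob μ a' b' c' d' (mob μ a b c d t) =
      mob μ (a * a' + 11 ^ (μ + 1) * b * c') (a * b' + b * d') (c * a' + d * c')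
        (11 ^ (μ + 1) * c * b' + d * d') t := by
  have h1 := ZMod.mul_inv_of_unit _ (unitA μ a c ha t)
  refine frac_eq (unitA μ a' c' ha' _) (unitA μ _ _ hA t) ?_
  unfold mob
  push_cast
  linear_combination (d' * ((b : ZMod (11 ^ m)) + d * t) * a' -
    b' * (11 ^ (μ + 1) * c' * ((b : ZMod (11 ^ m)) + d * t))) * h1

private theorem mob_neg (μ : ℕ) {m : ℕ} (a b c d : ℤ) (ha : ¬ (11 : ℤ) ∣ a) (t : ZMod (11 ^ m)) :
    mob μ (-a) (-b) (-c) (-d) t = mob μ a b c d t := by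
  have ha' : ¬ (11 : ℤ) ∣ -a := fun h => ha ((dvd_neg).mp h)
  refine frac_eq (unitA μ (-a) (-c) ha' t) (unitA μ a c ha t) ?_
  push_cast
  ring

private theorem mob_id (μ : ℕ) {m : ℕ} (t : ZMod (11 ^ m)) : mob μ 1 0 0 1 t = t := by
  unfold mob
  simp

private theorem mob_arg_neg (μ : ℕ) {m : ℕ} (a b c d : ℤ) (t : ZMod (11 ^ m)) :
    mob μ a b c d (-t) = mob μ a b (-c) (-d) t := by
  unfold mob
  push_cast
  ring_nf

private theorem neg_mob (μ : ℕ) {m : ℕ} (a b c d : ℤ) (t : ZMod (11 ^ m)) :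
    -mob μ a b c d t = mob μ a (-b) c (-d) t := by
  unfold mob
  push_cast
  ring_nf

private theorem dv_mob (μ : ℕ) {m : ℕ} (a b c d s : ℤ) (ha : ¬ (11 : ℤ) ∣ a)
    (hs : (11 : ℤ) ∣ a * d - 11 ^ (μ + 1) * b * c - s * a ^ 2) :
    Dv s (mob μ a b c d : ZMod (11 ^ m) → ZMod (11 ^ m)) := by
  intro i x x' hx
  obtain ⟨k, hk⟩ := hx
  obtain ⟨q, hq⟩ := hs
  have hq' := congrArg (Int.cast : ℤ → ZMod (11 ^ m)) hq
  push_cast at hq'
  have h := ZMod.mul_inv_of_unit _ (unitA μ a c ha x)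
  have h' := ZMod.mul_inv_of_unit _ (unitA μ a c ha x')
  unfold mob
  set v := ((a : ZMod (11 ^ m)) + 11 ^ (μ + 1) * c * x)⁻¹ with hv
  set v' := ((a : ZMod (11 ^ m)) + 11 ^ (μ + 1) * c * x')⁻¹ with hv'
  refine ⟨k * v * v' * (q - s * (11 ^ μ * c * x * a + 11 ^ μ * c * x' * a +
    11 ^ μ * 11 ^ (μ + 1) * c ^ 2 * x * x')), ?_⟩
  linear_combination (((b : ZMod (11 ^ m)) + d * x') * v' + s * (x - x')) * h +
    (-((b : ZMod (11 ^ m)) + d * x) * v +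
      s * (x - x') * (((a : ZMod (11 ^ m)) + 11 ^ (μ + 1) * c * x) * v)) * h' +
    v * v' * ((a * d - 11 ^ (μ + 1) * b * c) - s * (((a : ZMod (11 ^ m)) + 11 ^ (μ + 1) * c * x) *
      ((a : ZMod (11 ^ m)) + 11 ^ (μ + 1) * c * x'))) * hk + 11 ^ i * k * v * v' * hq'

private theorem dv_neg {m : ℕ} : Dv (-1) (fun x : ZMod (11 ^ m) => -x) := by
  intro i x x' _
  refine ⟨0, ?_⟩
  push_cast
  ring

private theorem dv_id {m : ℕ} : Dv 1 (fun x : ZMod (11 ^ m) => x) := by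
  intro i x x' _
  refine ⟨0, ?_⟩
  push_cast
  ring

private theorem ty0 {m : ℕ} (r : Pt m → Pt m) (μ : ℕ) (s s' : ℤ) (a b c d a' b' c' d' : ℤ)
    (ha : ¬ (11 : ℤ) ∣ a) (ha' : ¬ (11 : ℤ) ∣ a') (h1 : ¬ (11 : ℤ) ∣ s) (h2 : ¬ (11 : ℤ) ∣ s - 1)
    (h3 : ¬ (11 : ℤ) ∣ s') (h4 : ¬ (11 : ℤ) ∣ s' - 1)
    (hs : (11 : ℤ) ∣ a * d - 11 ^ (μ + 1) * b * c - s * a ^ 2)
    (hs' : (11 : ℤ) ∣ a' * d' - 11 ^ (μ + 1) * b' * c' - s' * a' ^ 2)
    (h : ∀ p : Pt m, r p = (mob μ a b c d p.1, mob μ a' b' c' d' p.2)) : Ty 0 r :=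
  Or.inl ⟨rfl, s, s', _, _, h1, h2, h3, h4, dv_mob μ a b c d s ha hs,
    dv_mob μ a' b' c' d' s' ha' hs', h⟩

private theorem ty1 {m : ℕ} (r : Pt m → Pt m) (μ : ℕ) (s s' : ℤ) (a b c d a' b' c' d' : ℤ)
    (ha : ¬ (11 : ℤ) ∣ a) (ha' : ¬ (11 : ℤ) ∣ a') (h1 : ¬ (11 : ℤ) ∣ s) (h3 : ¬ (11 : ℤ) ∣ s')
    (hs : (11 : ℤ) ∣ a * d - 11 ^ (μ + 1) * b * c - s * a ^ 2)
    (hs' : (11 : ℤ) ∣ a' * d' - 11 ^ (μ + 1) * b' * c' - s' * a' ^ 2)
    (h : ∀ p : Pt m, r p = (mob μ a b c d p.2, mob μ a' b' c' d' p.1)) : Ty 1 r :=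
  Or.inr ⟨rfl, s, s', _, _, h1, h3, dv_mob μ a b c d s ha hs, dv_mob μ a' b' c' d' s' ha' hs', h⟩

/-- Composition of two fractional linear maps, up to the scalar `k`. -/
private theorem mm (μ : ℕ) (k : ℤ) {m : ℕ} (a b c d a' b' c' d' A B C D : ℤ) (ha : ¬ (11 : ℤ) ∣ a)
    (ha' : ¬ (11 : ℤ) ∣ a') (hA : ¬ (11 : ℤ) ∣ A) (hk : ¬ (11 : ℤ) ∣ k)
    (h1 : a * a' + 11 ^ (μ + 1) * b * c' = k * A) (h2 : a * b' + b * d' = k * B)
    (h3 : c * a' + d * c' = k * C) (h4 : 11 ^ (μ + 1) * c * b' + d * d' = k * D) (t : ZMod (11 ^ m)) :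
    mob μ a' b' c' d' (mob μ a b c d t) = mob μ A B C D t := by
  have h5 : Prime (11 : ℤ) := by norm_num
  have hkA : ¬ (11 : ℤ) ∣ k * A := fun h => (h5.dvd_or_dvd h).elim hk hA
  rw [mob_mob μ a b c d a' b' c' d' ha ha' (by rw [h1]; exact hkA) t, h1, h2, h3, h4]
  refine frac_eq (unitA μ _ _ hkA t) (unitA μ A C hA t) ?_
  push_cast
  ring

private theorem dR_eq (μ : ℕ) {m : ℕ} (p : Pt m) :
    dR μ p = (mob μ 1 (-1) 0 (-1) p.1, mob μ 1 0 1 (-1) p.2) := by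
  show (mob μ 1 (-1) 0 1 (-p.1), mob μ 1 0 (-1) 1 (-p.2)) = _
  rw [mob_arg_neg, mob_arg_neg]
  norm_num

private theorem dRdR (μ : ℕ) {m : ℕ} (p : Pt m) : dR μ (dR μ p) = p := by
  rw [dR_eq, dR_eq]
  refine Prod.ext ?_ ?_
  · show mob μ 1 (-1) 0 (-1) (mob μ 1 (-1) 0 (-1) p.1) = p.1
    rw [mob_mob _ _ _ _ _ _ _ _ _ (by norm_num) (by norm_num) (by norm_num)]
    norm_num [mob_id]
  · show mob μ 1 0 1 (-1) (mob μ 1 0 1 (-1) p.2) = p.2
    rw [mob_mob _ _ _ _ _ _ _ _ _ (by norm_num) (by norm_num) (by norm_num)]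
    norm_num [mob_id]

private theorem cO_eq {m : ℕ} (p : Pt m) :
    cO p = (mob 0 2 (-1) 1 (-5) p.2, mob 0 (-5) 1 (-1) 2 p.1) := rfl

private theorem rO_eq {m : ℕ} (p : Pt m) :
    rO p = (mob 0 3 (-1) 1 (-4) p.2, mob 0 4 (-1) 1 (-3) p.1) := by
  show (mob 0 3 (-1) (-1) 4 (-p.2), mob 0 4 (-1) (-1) 3 (-p.1)) = _
  rw [mob_arg_neg, mob_arg_neg]
  norm_num

private theorem c5_eq {m : ℕ} (p : Pt m) :
    c5 p = (mob 1 2 (-1) 1 (-60) p.2, mob 1 (-60) 1 (-1) 2 p.1) := rfl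

private theorem cN_eq {m : ℕ} (p : Pt m) :
    cN p = (mob 1 8 (-1) 1 (-15) p.2, mob 1 (-15) 1 (-1) 8 p.1) := rfl

private theorem cK_eq {m : ℕ} (p : Pt m) :
    cK p = (mob 1 3 (-1) 1 (-40) p.2, mob 1 (-40) 1 (-1) 3 p.1) := rfl

private theorem cA_eq {m : ℕ} (p : Pt m) :
    cA p = (mob 1 4 (-1) 1 (-30) p.2, mob 1 (-30) 1 (-1) 4 p.1) := rfl

private theorem cB_eq {m : ℕ} (p : Pt m) :
    cB p = (mob 1 6 (-1) 1 (-20) p.2, mob 1 (-20) 1 (-1) 6 p.1) := rfl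

private theorem rC_eq {m : ℕ} (p : Pt m) :
    rC p = (mob 1 5 (-2) 2 (-97) p.2, mob 1 97 (-2) 2 (-5) p.1) := by
  show (mob 1 5 (-2) (-2) 97 (-p.2), mob 1 97 (-2) (-2) 5 (-p.1)) = _
  rw [mob_arg_neg, mob_arg_neg]
  norm_num

private theorem rD_eq {m : ℕ} (p : Pt m) :
    rD p = (mob 1 13 (-4) 4 (-149) p.2, mob 1 149 (-4) 4 (-13) p.1) := by
  show (mob 1 13 (-4) (-4) 149 (-p.2), mob 1 149 (-4) (-4) 13 (-p.1)) = _
  rw [mob_arg_neg, mob_arg_neg]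
  norm_num

private theorem gD_eq {m : ℕ} (p : Pt m) :
    gD p = (mob 1 36 (-11) 1 (-37) p.1, mob 1 37 (-1) 11 (-36) p.2) := by
  show (mob 1 36 (-11) (-1) 37 (-p.1), mob 1 37 (-1) (-11) 36 (-p.2)) = _
  rw [mob_arg_neg, mob_arg_neg]
  norm_num

private theorem gE_eq {m : ℕ} (p : Pt m) :
    gE p = (mob 1 9 (-2) 1 (-27) p.2, mob 1 27 (-1) 2 (-9) p.1) := by
  show (mob 1 9 (-2) (-1) 27 (-p.2), mob 1 27 (-1) (-2) 9 (-p.1)) = _
  rw [mob_arg_neg, mob_arg_neg]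
  norm_num

private theorem gF_eq {m : ℕ} (p : Pt m) :
    gF p = (mob 1 7 (-1) 3 (-52) p.2, mob 1 52 (-3) 1 (-7) p.1) := by
  show (mob 1 7 (-1) (-3) 52 (-p.2), mob 1 52 (-3) (-1) 7 (-p.1)) = _
  rw [mob_arg_neg, mob_arg_neg]
  norm_num

private theorem cO_inv {m : ℕ} (p : Pt m) : cO (cO p) = p := by
  rw [cO_eq, cO_eq]
  exact Prod.ext ((mm _ 1 _ _ _ _ _ _ _ _ 1 0 0 1 (by norm_num) (by norm_num) (by norm_num) (by norm_num) (by norm_num) (by norm_num) (by norm_num) (by norm_num) _).trans (mob_id _ _))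
    ((mm _ 1 _ _ _ _ _ _ _ _ 1 0 0 1 (by norm_num) (by norm_num) (by norm_num) (by norm_num) (by norm_num) (by norm_num) (by norm_num) (by norm_num) _).trans (mob_id _ _))

private theorem rO_inv {m : ℕ} (p : Pt m) : rO (rO p) = p := by
  rw [rO_eq, rO_eq]
  exact Prod.ext ((mm _ 1 _ _ _ _ _ _ _ _ 1 0 0 1 (by norm_num) (by norm_num) (by norm_num) (by norm_num) (by norm_num) (by norm_num) (by norm_num) (by norm_num) _).trans (mob_id _ _))
    ((mm _ 1 _ _ _ _ _ _ _ _ 1 0 0 1 (by norm_num) (by norm_num) (by norm_num) (by norm_num) (by norm_num) (by norm_num) (by norm_num) (by norm_num) _).trans (mob_id _ _))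

private theorem c5_inv {m : ℕ} (p : Pt m) : c5 (c5 p) = p := by
  rw [c5_eq, c5_eq]
  exact Prod.ext ((mm _ 1 _ _ _ _ _ _ _ _ 1 0 0 1 (by norm_num) (by norm_num) (by norm_num) (by norm_num) (by norm_num) (by norm_num) (by norm_num) (by norm_num) _).trans (mob_id _ _))
    ((mm _ 1 _ _ _ _ _ _ _ _ 1 0 0 1 (by norm_num) (by norm_num) (by norm_num) (by norm_num) (by norm_num) (by norm_num) (by norm_num) (by norm_num) _).trans (mob_id _ _))

private theorem cN_inv {m : ℕ} (p : Pt m) : cN (cN p) = p := by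
  rw [cN_eq, cN_eq]
  exact Prod.ext ((mm _ 1 _ _ _ _ _ _ _ _ 1 0 0 1 (by norm_num) (by norm_num) (by norm_num) (by norm_num) (by norm_num) (by norm_num) (by norm_num) (by norm_num) _).trans (mob_id _ _))
    ((mm _ 1 _ _ _ _ _ _ _ _ 1 0 0 1 (by norm_num) (by norm_num) (by norm_num) (by norm_num) (by norm_num) (by norm_num) (by norm_num) (by norm_num) _).trans (mob_id _ _))

private theorem cK_inv {m : ℕ} (p : Pt m) : cK (cK p) = p := by
  rw [cK_eq, cK_eq]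
  exact Prod.ext ((mm _ 1 _ _ _ _ _ _ _ _ 1 0 0 1 (by norm_num) (by norm_num) (by norm_num) (by norm_num) (by norm_num) (by norm_num) (by norm_num) (by norm_num) _).trans (mob_id _ _))
    ((mm _ 1 _ _ _ _ _ _ _ _ 1 0 0 1 (by norm_num) (by norm_num) (by norm_num) (by norm_num) (by norm_num) (by norm_num) (by norm_num) (by norm_num) _).trans (mob_id _ _))

private theorem cA_inv {m : ℕ} (p : Pt m) : cA (cA p) = p := by
  rw [cA_eq, cA_eq]
  exact Prod.ext ((mm _ 1 _ _ _ _ _ _ _ _ 1 0 0 1 (by norm_num) (by norm_num) (by norm_num) (by norm_num) (by norm_num) (by norm_num) (by norm_num) (by norm_num) _).trans (mob_id _ _))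
    ((mm _ 1 _ _ _ _ _ _ _ _ 1 0 0 1 (by norm_num) (by norm_num) (by norm_num) (by norm_num) (by norm_num) (by norm_num) (by norm_num) (by norm_num) _).trans (mob_id _ _))

private theorem cB_inv {m : ℕ} (p : Pt m) : cB (cB p) = p := by
  rw [cB_eq, cB_eq]
  exact Prod.ext ((mm _ 1 _ _ _ _ _ _ _ _ 1 0 0 1 (by norm_num) (by norm_num) (by norm_num) (by norm_num) (by norm_num) (by norm_num) (by norm_num) (by norm_num) _).trans (mob_id _ _))
    ((mm _ 1 _ _ _ _ _ _ _ _ 1 0 0 1 (by norm_num) (by norm_num) (by norm_num) (by norm_num) (by norm_num) (by norm_num) (by norm_num) (by norm_num) _).trans (mob_id _ _))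

private theorem rC_inv {m : ℕ} (p : Pt m) : rC (rC p) = p := by
  rw [rC_eq, rC_eq]
  exact Prod.ext ((mm _ 1 _ _ _ _ _ _ _ _ 1 0 0 1 (by norm_num) (by norm_num) (by norm_num) (by norm_num) (by norm_num) (by norm_num) (by norm_num) (by norm_num) _).trans (mob_id _ _))
    ((mm _ 1 _ _ _ _ _ _ _ _ 1 0 0 1 (by norm_num) (by norm_num) (by norm_num) (by norm_num) (by norm_num) (by norm_num) (by norm_num) (by norm_num) _).trans (mob_id _ _))

private theorem rD_inv {m : ℕ} (p : Pt m) : rD (rD p) = p := by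
  rw [rD_eq, rD_eq]
  exact Prod.ext ((mm _ 1 _ _ _ _ _ _ _ _ 1 0 0 1 (by norm_num) (by norm_num) (by norm_num) (by norm_num) (by norm_num) (by norm_num) (by norm_num) (by norm_num) _).trans (mob_id _ _))
    ((mm _ 1 _ _ _ _ _ _ _ _ 1 0 0 1 (by norm_num) (by norm_num) (by norm_num) (by norm_num) (by norm_num) (by norm_num) (by norm_num) (by norm_num) _).trans (mob_id _ _))

private theorem dRcO {m : ℕ} (p : Pt m) :
    dR 0 (cO p) = (mob 0 2 (-1) 1 (-6) p.2, mob 0 6 (-1) 1 (-2) p.1) := by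
  rw [cO_eq, dR_eq]
  exact Prod.ext (mm _ 1 _ _ _ _ _ _ _ _ _ _ _ _ (by norm_num) (by norm_num) (by norm_num) (by norm_num) (by norm_num) (by norm_num) (by norm_num) (by norm_num) _)
    (mm _ 1 _ _ _ _ _ _ _ _ _ _ _ _ (by norm_num) (by norm_num) (by norm_num) (by norm_num) (by norm_num) (by norm_num) (by norm_num) (by norm_num) _)

private theorem cOdR {m : ℕ} (p : Pt m) :
    cO (dR 0 p) = (mob 0 2 (-1) 1 (-6) p.2, mob 0 6 (-1) 1 (-2) p.1) := by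
  rw [dR_eq, cO_eq]
  exact Prod.ext (mm _ 1 _ _ _ _ _ _ _ _ _ _ _ _ (by norm_num) (by norm_num) (by norm_num) (by norm_num) (by norm_num) (by norm_num) (by norm_num) (by norm_num) _)
    (mm _ 1 _ _ _ _ _ _ _ _ _ _ _ _ (by norm_num) (by norm_num) (by norm_num) (by norm_num) (by norm_num) (by norm_num) (by norm_num) (by norm_num) _)

private theorem dRc5 {m : ℕ} (p : Pt m) :
    dR 1 (c5 p) = (mob 1 2 (-1) 1 (-61) p.2, mob 1 61 (-1) 1 (-2) p.1) := by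
  rw [c5_eq, dR_eq]
  exact Prod.ext (mm _ 1 _ _ _ _ _ _ _ _ _ _ _ _ (by norm_num) (by norm_num) (by norm_num) (by norm_num) (by norm_num) (by norm_num) (by norm_num) (by norm_num) _)
    (mm _ 1 _ _ _ _ _ _ _ _ _ _ _ _ (by norm_num) (by norm_num) (by norm_num) (by norm_num) (by norm_num) (by norm_num) (by norm_num) (by norm_num) _)

private theorem c5dR {m : ℕ} (p : Pt m) :
    c5 (dR 1 p) = (mob 1 2 (-1) 1 (-61) p.2, mob 1 61 (-1) 1 (-2) p.1) := by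
  rw [dR_eq, c5_eq]
  exact Prod.ext (mm _ 1 _ _ _ _ _ _ _ _ _ _ _ _ (by norm_num) (by norm_num) (by norm_num) (by norm_num) (by norm_num) (by norm_num) (by norm_num) (by norm_num) _)
    (mm _ 1 _ _ _ _ _ _ _ _ _ _ _ _ (by norm_num) (by norm_num) (by norm_num) (by norm_num) (by norm_num) (by norm_num) (by norm_num) (by norm_num) _)

private theorem rOsw {m : ℕ} (p : Pt m) :
    rO (sw p) = (mob 0 3 (-1) 1 (-4) p.1, mob 0 4 (-1) 1 (-3) p.2) := by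
  rw [rO_eq]
  rfl

private theorem cOrO {m : ℕ} (p : Pt m) :
    cO (rO p) = (mob 0 3 (-1) 1 (-4) p.1, mob 0 4 (-1) 1 (-3) p.2) := by
  rw [rO_eq, cO_eq]
  exact Prod.ext (mm _ (-1) _ _ _ _ _ _ _ _ _ _ _ _ (by norm_num) (by norm_num) (by norm_num) (by norm_num) (by norm_num) (by norm_num) (by norm_num) (by norm_num) _)
    (mm _ (-1) _ _ _ _ _ _ _ _ _ _ _ _ (by norm_num) (by norm_num) (by norm_num) (by norm_num) (by norm_num) (by norm_num) (by norm_num) (by norm_num) _)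

/-- Module TYP. -/
theorem hTyp : HTyp := by
  intro m
  refine ⟨⟨⟨?_, fun _ => rfl, fun _ => rfl⟩, ?_, ?_, ?_⟩,
    ⟨⟨dRdR 0, cO_inv, fun p => (dRcO p).trans (cOdR p).symm⟩,
      (ty0 _ 0 10 10 _ _ _ _ _ _ _ _ (by norm_num) (by norm_num) (by norm_num) (by norm_num) (by norm_num) (by norm_num) (by norm_num) (by norm_num) (dR_eq 0)),
      (ty1 _ 0 3 4 _ _ _ _ _ _ _ _ (by norm_num) (by norm_num) (by norm_num) (by norm_num) (by norm_num) (by norm_num) cO_eq),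
      (ty1 _ 0 8 7 _ _ _ _ _ _ _ _ (by norm_num) (by norm_num) (by norm_num) (by norm_num) (by norm_num) (by norm_num) dRcO)⟩,
    ⟨⟨rO_inv, (ty1 _ 0 6 2 _ _ _ _ _ _ _ _ (by norm_num) (by norm_num) (by norm_num) (by norm_num) (by norm_num) (by norm_num) rO_eq)⟩,
      fun p => (rOsw p).trans (cOrO p).symm⟩,
    ⟨⟨dRdR 1, c5_inv, fun p => (dRc5 p).trans (c5dR p).symm⟩,
      (ty0 _ 1 10 10 _ _ _ _ _ _ _ _ (by norm_num) (by norm_num) (by norm_num) (by norm_num) (by norm_num) (by norm_num) (by norm_num) (by norm_num) (dR_eq 1)),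
      (ty1 _ 1 3 4 _ _ _ _ _ _ _ _ (by norm_num) (by norm_num) (by norm_num) (by norm_num) (by norm_num) (by norm_num) c5_eq),
      (ty1 _ 1 8 7 _ _ _ _ _ _ _ _ (by norm_num) (by norm_num) (by norm_num) (by norm_num) (by norm_num) (by norm_num) dRc5)⟩,
    ⟨⟨cN_inv, (ty1 _ 1 5 9 _ _ _ _ _ _ _ _ (by norm_num) (by norm_num) (by norm_num) (by norm_num) (by norm_num) (by norm_num) cN_eq)⟩,
      ⟨cK_inv, (ty1 _ 1 5 9 _ _ _ _ _ _ _ _ (by norm_num) (by norm_num) (by norm_num) (by norm_num) (by norm_num) (by norm_num) cK_eq)⟩,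
      ⟨cA_inv, (ty1 _ 1 9 5 _ _ _ _ _ _ _ _ (by norm_num) (by norm_num) (by norm_num) (by norm_num) (by norm_num) (by norm_num) cA_eq)⟩,
      ⟨cB_inv, (ty1 _ 1 4 3 _ _ _ _ _ _ _ _ (by norm_num) (by norm_num) (by norm_num) (by norm_num) (by norm_num) (by norm_num) cB_eq)⟩,
      ⟨rC_inv, (ty1 _ 1 7 8 _ _ _ _ _ _ _ _ (by norm_num) (by norm_num) (by norm_num) (by norm_num) (by norm_num) (by norm_num) rC_eq)⟩,
      ⟨rD_inv, (ty1 _ 1 8 7 _ _ _ _ _ _ _ _ (by norm_num) (by norm_num) (by norm_num) (by norm_num) (by norm_num) (by norm_num) rD_eq)⟩⟩,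
    ⟨(ty0 _ 1 6 2 _ _ _ _ _ _ _ _ (by norm_num) (by norm_num) (by norm_num) (by norm_num) (by norm_num) (by norm_num) (by norm_num) (by norm_num) gD_eq),
      (ty1 _ 1 8 7 _ _ _ _ _ _ _ _ (by norm_num) (by norm_num) (by norm_num) (by norm_num) (by norm_num) (by norm_num) gE_eq),
      (ty1 _ 1 2 6 _ _ _ _ _ _ _ _ (by norm_num) (by norm_num) (by norm_num) (by norm_num) (by norm_num) (by norm_num) gF_eq)⟩⟩
  · intro p
    simp [ng]
  · exact Or.inl ⟨rfl, -1, -1, _, _, by norm_num, by norm_num, by norm_num, by norm_num, dv_neg,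
      dv_neg, fun p => rfl⟩
  · exact Or.inr ⟨rfl, 1, 1, _, _, by norm_num, by norm_num, dv_id, dv_id, fun p => rfl⟩
  · exact Or.inr ⟨rfl, -1, -1, _, _, by norm_num, by norm_num, dv_neg, dv_neg, fun p => rfl⟩

end Pool.Agent.Helper80.P11
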